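import Pool.Agent.H30.VR.Targets

/-!
# MP_d32443_co, board ver_modules, row BSL
-/

set_option autoImplicit false

open Finset Pool.Agent.H48.CE Pool.Agent.H30.VR

namespace Pool.Agent.H88.VR

/-- `p` is a period of `X` -/
def Prd (X : ℤ → Prop) (p : ℤ) : Prop := ∀ x, X (x + p) ↔ X x

theorem Prd.neg {X : ℤ → Prop} {p : ℤ} (h : Prd X p) : Prd X (-p) := by
  intro x
  have := h (x + -p)
  rw [show x + -p + p = x by ring] at this
  exact this.symm

theorem Prd.add {X : ℤ → Prop} {p q : ℤ} (h : Prd X p) (h' : Prd X q) : Prd X (p + q) := by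
  intro x
  rw [← add_assoc, h', h]

theorem Prd.zero {X : ℤ → Prop} : Prd X 0 := by
  intro x
  rw [add_zero]

theorem Prd.nmul {X : ℤ → Prop} {p : ℤ} (h : Prd X p) (k : ℕ) : Prd X (k * p) := by
  induction k with
  | zero => simpa using Prd.zero
  | succ k ih =>
    have := ih.add h
    rw [show ((k + 1 : ℕ) : ℤ) * p = k * p + p by push_cast; ring]
    exact this

theorem Prd.zmul {X : ℤ → Prop} {p : ℤ} (h : Prd X p) (k : ℤ) : Prd X (k * p) := by
  rcases Int.eq_nat_or_neg k with ⟨a, rfl | rfl⟩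
  · exact h.nmul a
  · have := (h.nmul a).neg
    rw [show -(a : ℤ) * p = -(a * p) by ring]
    exact this

/-- a periodic statement which holds for `t` consecutive integers -/
theorem ext_per (t : ℕ) (ht : 0 < t) (P : ℤ → Prop) (hP : Prd P t) (a : ℤ)
    (h : ∀ j : ℕ, j < t → P (a + j)) (x : ℤ) : P x := by
  have ht' : (0 : ℤ) < t := by exact_mod_cast ht
  have h1 : 0 ≤ (x - a) % t := Int.emod_nonneg _ ht'.ne'
  have h2 : (x - a) % t < t := Int.emod_lt_of_pos _ ht'
  obtain ⟨j, hj⟩ := Int.eq_ofNat_of_zero_le h1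
  have h3 := h j (by omega)
  have h4 := hP.zmul ((x - a) / t) (a + j)
  have h5 : a + j + (x - a) / t * t = x := by
    have := Int.emod_add_mul_ediv (x - a) t
    rw [← hj]
    linarith [mul_comm ((x - a) / (t : ℤ)) t]
  rw [h5] at h4
  exact h4.2 h3

/-- what the absence of paths of length `m` gives -/
structure BS (n m : ℕ) (r : ℤ) (X : ℤ → Prop) : Prop where
  pn : Prd X n
  pm : Prd X m
  pth : ∀ s₁ s₂ : ℤ, (s₁ = 1 ∨ s₁ = -1) → (s₂ = 1 ∨ s₂ = -1) → ∀ i j : ℕ, i + j + 1 = m →
    (∀ a b : ℕ, a ≤ j → b ≤ i → ¬ (n : ℤ) ∣ r + s₂ * b - s₁ * a) →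
    (X (s₁ * j) ↔ X (r + s₂ * i))

theorem not_dvd {n : ℕ} {z : ℤ} (h1 : 0 < z) (h2 : z < n) : ¬ (n : ℤ) ∣ z := by
  intro h
  have := Int.le_of_dvd h1 h
  omega

theorem not_dvd' {n : ℕ} {z : ℤ} (h1 : -(n : ℤ) < z) (h2 : z < 0) : ¬ (n : ℤ) ∣ z := by
  intro h
  have h3 : (n : ℤ) ∣ -z := (dvd_neg).2 h
  have h4 : (n : ℤ) ≤ -z := Int.le_of_dvd (by omega : 0 < -z) h3
  omega

section comb

variable {n m : ℕ} {r : ℤ} {X : ℤ → Prop}

theorem BS.type1 (h : BS n m r X) (hr0 : 0 < r) (j : ℕ) (hj : j < m) (hm : m ≤ n - r) :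
    X (-j) ↔ X (r + m - 1 - j) := by
  have h1 := h.pth (-1) 1 (Or.inr rfl) (Or.inl rfl) (m - 1 - j) j (by omega) (by
    intro a b ha hb
    apply not_dvd
    · omega
    · omega)
  rw [show (-1 : ℤ) * j = -j by ring, show r + 1 * ((m - 1 - j : ℕ) : ℤ) = r + m - 1 - j by omega]
    at h1
  exact h1

theorem BS.type3 (h : BS n m r X) (j : ℕ) (hj : j < m) (hj2 : j ≤ r - 1)
    (hi : (m : ℤ) - 1 - j ≤ n - r - 1) : X j ↔ X (r - 1 - j) := by
  have h1 := h.pth 1 1 (Or.inl rfl) (Or.inl rfl) (m - 1 - j) j (by omega) (by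
    intro a b ha hb
    apply not_dvd
    · omega
    · omega)
  rw [show (1 : ℤ) * j = j by ring, show r + 1 * ((m - 1 - j : ℕ) : ℤ) = (r - 1 - j) + m by omega,
    h.pm] at h1
  exact h1

theorem BS.type4 (h : BS n m r X) (i : ℕ) (hi : i < m) (hi2 : i ≤ r - 1)
    (hj : (m : ℤ) - 1 - i ≤ n - r - 1) : X (i + 1) ↔ X (r - i) := by
  have h1 := h.pth (-1) (-1) (Or.inr rfl) (Or.inr rfl) i (m - 1 - i) (by omega) (by
    intro a b ha hb
    apply not_dvd
    · omega
    · omega)
  have h2 := h.pm ((-1 : ℤ) * ((m - 1 - i : ℕ) : ℤ))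
  rw [← h2, show (-1 : ℤ) * ((m - 1 - i : ℕ) : ℤ) + m = i + 1 by omega,
    show r + -1 * (i : ℤ) = r - i by ring] at h1
  exact h1

/-- the reflection -/
theorem BS.refl (h : BS n m r X) : BS n m (n - r) (fun x => X (-x)) := by
  refine ⟨?_, ?_, ?_⟩
  · intro x
    show X (-(x + n)) ↔ X (-x)
    have := h.pn.neg (-x)
    rw [show -(x + n) = -x + -(n : ℤ) by ring]
    exact this
  · intro x
    show X (-(x + m)) ↔ X (-x)
    have := h.pm.neg (-x)
    rw [show -(x + m) = -x + -(m : ℤ) by ring]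
    exact this
  · intro s₁ s₂ h1 h2 i j hij hd
    show X (-(s₁ * j)) ↔ X (-((n : ℤ) - r + s₂ * i))
    have h3 := h.pth (-s₁) (-s₂) (by omega) (by omega) i j hij (by
      intro a b ha hb hdv
      apply hd a b ha hb
      have : (n : ℤ) - r + s₂ * b - s₁ * a = n * 1 - (r + -s₂ * b - -s₁ * a) := by ring
      rw [this]
      exact dvd_sub (dvd_mul_right _ _) hdv)
    have h4 := h.pn.neg (r + -s₂ * i)
    rw [show -(s₁ * (j : ℤ)) = -s₁ * j by ring,
      show -((n : ℤ) - r + s₂ * i) = r + -s₂ * i + -n by ring, h4]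
    exact h3

/-- the case of a long arc -/
theorem BS.caseA (h : BS n m r X) (t : ℕ) (ht : 3 ≤ t) (hper : Prd X t)
    (hmin : ∀ p : ℤ, Prd X p → (t : ℤ) ∣ p) (hr : 2 ≤ r) (hm1 : 1 ≤ m) (hm : m ≤ n - r) :
    False := by
  have htm : t ≤ m := by
    have := Int.le_of_dvd (by omega : (0 : ℤ) < m) (hmin m h.pm)
    omega
  have hr1 : Prd X (r - 1) := by
    have hx : ∀ x : ℤ, (X (x + (r - 1)) ↔ X x) := by
      apply ext_per t (by omega) (fun x => (X (x + (r - 1)) ↔ X x)) _ (-((t : ℤ) - 1))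
      · intro j hj
        show X (-((t : ℤ) - 1) + j + (r - 1)) ↔ X (-((t : ℤ) - 1) + j)
        have h1 := h.type1 (by omega) (t - 1 - j) (by omega) hm
        have h2 := h.pm (-((t : ℤ) - 1) + j + (r - 1))
        rw [show -(((t - 1 - j : ℕ)) : ℤ) = -((t : ℤ) - 1) + j by omega,
          show r + m - 1 - ((t - 1 - j : ℕ) : ℤ) = -((t : ℤ) - 1) + j + (r - 1) + m by omega,
          h2] at h1
        exact h1.symm
      · intro x
        show (X (x + t + (r - 1)) ↔ X (x + t)) ↔ (X (x + (r - 1)) ↔ X x)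
        rw [show x + t + (r - 1) = x + (r - 1) + t by ring, hper, hper]
    exact hx
  have htr : (t : ℤ) ≤ r - 1 := Int.le_of_dvd (by omega) (hmin _ hr1)
  have hneg : ∀ x : ℤ, (X x ↔ X (-x)) := by
    apply ext_per t (by omega) (fun x => (X x ↔ X (-x))) _ 0
    · intro j hj
      show X (0 + j) ↔ X (-(0 + j))
      have h1 := h.type3 j (by omega) (by omega) (by omega)
      rw [show r - 1 - j = -(j : ℤ) + (r - 1) by ring, hr1] at h1
      rw [zero_add]
      exact h1
    · intro x
      show (X (x + t) ↔ X (-(x + t))) ↔ (X x ↔ X (-x))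
      rw [show -(x + t) = -x + -(t : ℤ) by ring, hper, hper.neg]
  have h2p : Prd X 2 := by
    have hx : ∀ x : ℤ, (X (x + 2) ↔ X x) := by
      apply ext_per t (by omega) (fun x => (X (x + 2) ↔ X x)) _ (-1)
      · intro j hj
        show X (-1 + j + 2) ↔ X (-1 + j)
        have h1 := h.type4 j (by omega) (by omega) (by omega)
        rw [show r - j = (1 - (j : ℤ)) + (r - 1) by ring, hr1, hneg (1 - j)] at h1
        rw [show -1 + (j : ℤ) + 2 = j + 1 by ring, h1, show -(1 - (j : ℤ)) = -1 + j by ring]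
      · intro x
        show (X (x + t + 2) ↔ X (x + t)) ↔ (X (x + 2) ↔ X x)
        rw [show x + t + 2 = x + 2 + t by ring, hper, hper]
    exact hx
  have := Int.le_of_dvd (by norm_num) (hmin 2 h2p)
  omega

theorem BS.caseB (h : BS n m r X) (t : ℕ) (ht : 3 ≤ t) (hper : Prd X t)
    (hmin : ∀ p : ℤ, Prd X p → (t : ℤ) ∣ p) (hm : m < n) (h1 : (n : ℤ) - r < m) (h2 : r < m) :
    False := by
  have htm : (t : ℤ) ≤ n - m := by
    apply Int.le_of_dvd (by omega)
    exact dvd_sub (hmin _ h.pn) (hmin _ h.pm)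
  have hA : ∀ x : ℤ, (X x ↔ X (r - 1 - x)) := by
    apply ext_per t (by omega) (fun x => (X x ↔ X (r - 1 - x))) _ (m - n + r)
    · intro j hj
      show X ((m : ℤ) - n + r + j) ↔ X (r - 1 - ((m : ℤ) - n + r + j))
      obtain ⟨k, hk⟩ : ∃ k : ℕ, (k : ℤ) = (m : ℤ) - n + r + j :=
        ⟨((m : ℤ) - n + r + j).toNat, by omega⟩
      rw [← hk]
      exact h.type3 k (by omega) (by omega) (by omega)
    · intro x
      show (X (x + t) ↔ X (r - 1 - (x + t))) ↔ (X x ↔ X (r - 1 - x))
      rw [show r - 1 - (x + t) = r - 1 - x + -(t : ℤ) by ring, hper, hper.neg]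
  have hB : ∀ x : ℤ, (X x ↔ X (r + 1 - x)) := by
    apply ext_per t (by omega) (fun x => (X x ↔ X (r + 1 - x))) _ (m - n + r + 1)
    · intro j hj
      show X ((m : ℤ) - n + r + 1 + j) ↔ X (r + 1 - ((m : ℤ) - n + r + 1 + j))
      obtain ⟨k, hk⟩ : ∃ k : ℕ, (k : ℤ) = (m : ℤ) - n + r + j :=
        ⟨((m : ℤ) - n + r + j).toNat, by omega⟩
      rw [show (m : ℤ) - n + r + 1 + j = k + 1 by omega, show r + 1 - ((k : ℤ) + 1) = r - k by ring]
      exact h.type4 k (by omega) (by omega) (by omega)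
    · intro x
      show (X (x + t) ↔ X (r + 1 - (x + t))) ↔ (X x ↔ X (r + 1 - x))
      rw [show r + 1 - (x + t) = r + 1 - x + -(t : ℤ) by ring, hper, hper.neg]
  have h2p : Prd X 2 := by
    intro x
    have e1 := hA (r - 1 - x)
    have e2 := hB (r - 1 - x)
    rw [show r - 1 - (r - 1 - x) = x by ring] at e1
    rw [show r + 1 - (r - 1 - x) = x + 2 by ring] at e2
    rw [← e2, e1]
  have := Int.le_of_dvd (by norm_num) (hmin 2 h2p)
  omega

theorem BS.main (h : BS n m r X) (hm1 : 1 ≤ m) (hm : m < n) (hr : 2 ≤ r) (hr2 : r ≤ n - 2)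
    (hc1 : ∃ x, X x) (hc2 : ∃ x, ¬ X x) : ∀ x, X (x + 1) ↔ ¬ X x := by
  classical
  have hex : ∃ t : ℕ, 0 < t ∧ Prd X t := ⟨m, by omega, h.pm⟩
  set t := Nat.find hex with htdef
  obtain ⟨ht0, hper⟩ := Nat.find_spec hex
  rw [← htdef] at ht0 hper
  have hmin0 : ∀ s : ℕ, 0 < s → Prd X s → t ≤ s := fun s hs hs' => Nat.find_min' hex ⟨hs, hs'⟩
  have hmin : ∀ p : ℤ, Prd X p → (t : ℤ) ∣ p := by
    intro p hp
    have ht' : (0 : ℤ) < t := by exact_mod_cast ht0
    have h1 : 0 ≤ p % t := Int.emod_nonneg _ ht'.ne'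
    have h2 : p % t < t := Int.emod_lt_of_pos _ ht'
    obtain ⟨s, hs⟩ := Int.eq_ofNat_of_zero_le h1
    have h3 : Prd X s := by
      have h4 := hp.add (hper.zmul (-(p / t)))
      rw [show p + -(p / t) * t = s by
        have := Int.emod_add_mul_ediv p t
        rw [← hs]
        linarith [mul_comm (p / (t : ℤ)) t]] at h4
      exact h4
    by_cases hs0 : 0 < s
    · have := hmin0 s hs0 h3
      omega
    · apply Int.dvd_of_emod_eq_zero
      omega
  have ht1 : t ≠ 1 := by
    intro h1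
    obtain ⟨x, hx⟩ := hc1
    obtain ⟨y, hy⟩ := hc2
    apply hy
    rw [h1] at hper
    have := hper.zmul (y - x) x
    rw [show x + (y - x) * ((1 : ℕ) : ℤ) = y by push_cast; ring] at this
    exact this.2 hx
  have ht2 : t = 2 → ∀ x, X (x + 1) ↔ ¬ X x := by
    intro h2
    rw [h2] at hper
    have hne : ¬ (X 1 ↔ X 0) := by
      intro he
      apply ht1
      have : t ≤ 1 := by
        apply hmin0 1 one_pos
        intro x
        obtain ⟨k, hk | hk⟩ := Int.even_or_odd' x
        · have a1 := hper.zmul k 0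
          have a2 := hper.zmul k 1
          rw [show 0 + k * ((2 : ℕ) : ℤ) = x by rw [hk]; push_cast; ring] at a1
          rw [show 1 + k * ((2 : ℕ) : ℤ) = x + ((1 : ℕ) : ℤ) by rw [hk]; push_cast; ring] at a2
          rw [a1, a2, he]
        · have a1 := hper.zmul (k + 1) 0
          have a2 := hper.zmul k 1
          rw [show 0 + (k + 1) * ((2 : ℕ) : ℤ) = x + ((1 : ℕ) : ℤ) by
            rw [hk]; push_cast; ring] at a1
          rw [show 1 + k * ((2 : ℕ) : ℤ) = x by rw [hk]; push_cast; ring] at a2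
          rw [a1, a2, he]
      omega
    intro x
    obtain ⟨k, hk | hk⟩ := Int.even_or_odd' x
    · have a1 := hper.zmul k 0
      have a2 := hper.zmul k 1
      rw [show 0 + k * ((2 : ℕ) : ℤ) = x by rw [hk]; push_cast; ring] at a1
      rw [show 1 + k * ((2 : ℕ) : ℤ) = x + 1 by rw [hk]; push_cast; ring] at a2
      rw [a1, a2]
      tauto
    · have a1 := hper.zmul (k + 1) 0
      have a2 := hper.zmul k 1
      rw [show 0 + (k + 1) * ((2 : ℕ) : ℤ) = x + 1 by rw [hk]; push_cast; ring] at a1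
      rw [show 1 + k * ((2 : ℕ) : ℤ) = x by rw [hk]; push_cast; ring] at a2
      rw [a1, a2]
      tauto
  by_cases h2 : t = 2
  · exact ht2 h2
  have ht3 : 3 ≤ t := by omega
  exfalso
  by_cases hA : (m : ℤ) ≤ n - r
  · exact h.caseA t ht3 hper hmin hr hm1 hA
  by_cases hA' : (m : ℤ) ≤ r
  · refine h.refl.caseA t ht3 ?_ ?_ (by omega) hm1 (by omega)
    · intro x
      show X (-(x + t)) ↔ X (-x)
      rw [show -(x + t) = -x + -(t : ℤ) by ring, hper.neg]
    · intro p hp
      apply hmin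
      intro x
      have h5 : X (-(-(x + p) + p)) ↔ X (-(-(x + p))) := hp (-(x + p))
      rw [show -(-(x + p) + p) = x by ring, neg_neg] at h5
      exact h5.symm
  · exact h.caseB t ht3 hper hmin hm (by omega) (by omega)

end comb

theorem pf_BSL : T_BSL := by
  intro V H n c r hC χ hχ1 hχ2 hχ3 m hm1 hmn
  by_contra hcon
  have hn4 := hC.four
  have : NeZero n := ⟨by omega⟩
  -- paths
  have hno : ∀ q : ℕ → ZMod n, (∀ i < m, H.Adj (c (q i)) (c (q (i + 1)))) →
      (∀ i ≤ m, ∀ j ≤ m, q i = q j → i = j) → (χ (q 0) ↔ χ (q m)) := by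
    intro q hadj hinj
    have hp : Pt H (c (q 0)) ((List.range (m - 1)).map (fun i => c (q (i + 1)))) (c (q m)) :=
      pt_of_fun (p := fun i => c (q i)) hm1 hadj
        (fun i hi j hj h => hinj i hi j hj (hC.inj h))
    have hl : ((List.range (m - 1)).map (fun i => c (q (i + 1)))).length + 1 = m := by
      rw [List.length_map, List.length_range]
      omega
    have hz : ∀ z ∈ (List.range (m - 1)).map (fun i => c (q (i + 1))), ∃ i, z = c i := by
      intro z hz
      obtain ⟨i, -, rfl⟩ := List.mem_map.1 hz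
      exact ⟨_, rfl⟩
    by_contra hne
    by_cases h0 : χ (q 0)
    · have hm : ¬ χ (q m) := fun h => hne ⟨fun _ => h, fun _ => h0⟩
      exact hcon ⟨_, _, h0, hm, _, hl, hp, hz⟩
    · have hm : χ (q m) := by
        by_contra h
        exact hne ⟨fun h' => absurd h' h0, fun h' => absurd h' h⟩
      refine hcon ⟨_, _, hm, h0, _, ?_, hp.symm, ?_⟩
      · rw [List.length_reverse]
        exact hl
      · intro z hz'
        exact hz z (List.mem_reverse.1 hz')
  -- the integer version
  have hcast : ∀ a b : ℤ, ((a : ℤ) : ZMod n) = ((b : ℤ) : ZMod n) ↔ (n : ℤ) ∣ b - a :=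
    fun a b => ZMod.intCast_eq_intCast_iff_dvd_sub a b n
  have hadjZ : ∀ a b : ℤ, (b = a + 1 ∨ a = b + 1) → H.Adj (c (a : ZMod n)) (c (b : ZMod n)) := by
    rintro a b (rfl | rfl)
    · push_cast
      exact hC.adj _
    · push_cast
      exact (hC.adj _).symm
  have hr : ((r.val : ℤ) : ZMod n) = r := by
    rw [Int.cast_natCast, ZMod.natCast_zmod_val]
  have hrlt : r.val < n := ZMod.val_lt r
  have hr0 : r.val ≠ 0 := by
    intro h
    have h1 : r = 0 := (ZMod.val_eq_zero r).1 h
    have h2 := hC.chord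
    rw [h1] at h2
    exact H.loopless.irrefl _ h2
  have hr1 : r.val ≠ 1 := by
    intro h
    apply hC.ne_one
    rw [← hr, h]
    simp
  have hr2 : r.val ≠ n - 1 := by
    intro h
    apply hC.ne_neg
    rw [← hr, h]
    push_cast [Nat.cast_sub (by omega : 1 ≤ n)]
    simp
  set X : ℤ → Prop := fun z => χ (z : ZMod n) with hX
  have hBS : BS n m (r.val : ℤ) X := by
    refine ⟨?_, ?_, ?_⟩
    · intro x
      show χ ((x + (n : ℤ) : ℤ) : ZMod n) ↔ χ (x : ZMod n)
      have : ((x + (n : ℤ) : ℤ) : ZMod n) = (x : ZMod n) := by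
        push_cast
        simp
      rw [this]
    · intro x
      show χ ((x + (m : ℤ) : ℤ) : ZMod n) ↔ χ (x : ZMod n)
      have h1 := hno (fun i => ((x + (i : ℤ) : ℤ) : ZMod n)) (by
        intro i _
        apply hadjZ
        left
        push_cast
        ring) (by
        intro i hi j hj h
        rw [hcast] at h
        by_contra hij
        rcases Nat.lt_or_gt_of_ne hij with h' | h'
        · exact not_dvd (by omega) (by omega) h
        · exact not_dvd' (by omega) (by omega) h)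
      simp only [Nat.cast_zero, add_zero] at h1
      exact h1.symm
    · intro s₁ s₂ h1 h2 i j hij hd
      have hq := hno (fun k => ((if k ≤ j then s₁ * ((j : ℤ) - k) else
        (r.val : ℤ) + s₂ * ((k : ℤ) - j - 1) : ℤ) : ZMod n)) (by
        intro k hk
        show H.Adj (c (((if k ≤ j then s₁ * ((j : ℤ) - k) else
          (r.val : ℤ) + s₂ * ((k : ℤ) - j - 1) : ℤ) : ZMod n)))
          (c (((if k + 1 ≤ j then s₁ * ((j : ℤ) - ((k + 1 : ℕ) : ℤ)) else
          (r.val : ℤ) + s₂ * (((k + 1 : ℕ) : ℤ) - j - 1) : ℤ) : ZMod n)))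
        rcases Nat.lt_trichotomy k j with h | h | h
        · rw [if_pos (by omega), if_pos (by omega)]
          apply hadjZ
          rcases h1 with rfl | rfl
          · right
            push_cast
            ring
          · left
            push_cast
            ring
        · rw [if_pos (by omega), if_neg (by omega), h]
          have e1 : ((s₁ * ((j : ℤ) - j) : ℤ) : ZMod n) = 0 := by simp
          have e2 : (((r.val : ℤ) + s₂ * (((j + 1 : ℕ) : ℤ) - j - 1) : ℤ) : ZMod n) = r := by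
            rw [show (((j + 1 : ℕ) : ℤ) - j - 1) = 0 by push_cast; ring, mul_zero, add_zero, hr]
          rw [e1, e2]
          exact hC.chord
        · rw [if_neg (by omega), if_neg (by omega)]
          apply hadjZ
          rcases h2 with rfl | rfl
          · left
            push_cast
            ring
          · right
            push_cast
            ring) (by
        intro k hk k' hk' h
        rw [hcast] at h
        by_contra hne
        by_cases a1 : k ≤ j
        · by_cases a2 : k' ≤ j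
          · rw [if_pos a1, if_pos a2] at h
            rcases h1 with rfl | rfl
            · rcases Nat.lt_or_gt_of_ne hne with h' | h'
              · exact not_dvd' (by omega) (by omega) h
              · exact not_dvd (by omega) (by omega) h
            · rcases Nat.lt_or_gt_of_ne hne with h' | h'
              · exact not_dvd (by omega) (by omega) h
              · exact not_dvd' (by omega) (by omega) h
          · rw [if_pos a1, if_neg a2] at h
            apply hd (j - k) (k' - j - 1) (by omega) (by omega)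
            rw [show ((k' - j - 1 : ℕ) : ℤ) = (k' : ℤ) - j - 1 by omega,
              show ((j - k : ℕ) : ℤ) = (j : ℤ) - k by omega]
            exact h
        · by_cases a2 : k' ≤ j
          · rw [if_neg a1, if_pos a2] at h
            apply hd (j - k') (k - j - 1) (by omega) (by omega)
            rw [show ((k - j - 1 : ℕ) : ℤ) = (k : ℤ) - j - 1 by omega,
              show ((j - k' : ℕ) : ℤ) = (j : ℤ) - k' by omega]
            rw [← dvd_neg]
            rw [show -((r.val : ℤ) + s₂ * ((k : ℤ) - j - 1) - s₁ * ((j : ℤ) - k')) =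
              s₁ * ((j : ℤ) - k') - ((r.val : ℤ) + s₂ * ((k : ℤ) - j - 1)) by ring]
            exact h
          · rw [if_neg a1, if_neg a2] at h
            rcases h2 with rfl | rfl
            · rcases Nat.lt_or_gt_of_ne hne with h' | h'
              · exact not_dvd (by omega) (by omega) h
              · exact not_dvd' (by omega) (by omega) h
            · rcases Nat.lt_or_gt_of_ne hne with h' | h'
              · exact not_dvd' (by omega) (by omega) h
              · exact not_dvd (by omega) (by omega) h)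
      have e0 : (if 0 ≤ j then s₁ * ((j : ℤ) - ((0 : ℕ) : ℤ)) else
          (r.val : ℤ) + s₂ * (((0 : ℕ) : ℤ) - j - 1) : ℤ) = s₁ * j := by
        rw [if_pos (Nat.zero_le _)]
        simp
      have em : (if m ≤ j then s₁ * ((j : ℤ) - (m : ℤ)) else
          (r.val : ℤ) + s₂ * ((m : ℤ) - j - 1) : ℤ) = (r.val : ℤ) + s₂ * i := by
        rw [if_neg (by omega), show (m : ℤ) - j - 1 = i by omega]
      show χ ((s₁ * (j : ℤ) : ℤ) : ZMod n) ↔ χ (((r.val : ℤ) + s₂ * (i : ℤ) : ℤ) : ZMod n)
      rw [← e0, ← em]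
      exact hq
  have hfin := hBS.main hm1 hmn (by omega) (by omega) (by
    obtain ⟨i, hi⟩ := hχ1
    refine ⟨(i.val : ℤ), ?_⟩
    show χ (((i.val : ℤ)) : ZMod n)
    rw [Int.cast_natCast, ZMod.natCast_zmod_val]
    exact hi) (by
    obtain ⟨i, hi⟩ := hχ2
    refine ⟨(i.val : ℤ), ?_⟩
    show ¬ χ (((i.val : ℤ)) : ZMod n)
    rw [Int.cast_natCast, ZMod.natCast_zmod_val]
    exact hi)
  apply hχ3
  intro i
  have h1 := hfin (i.val : ℤ)
  have h2 : χ ((((i.val : ℤ) + 1 : ℤ)) : ZMod n) ↔ ¬ χ (((i.val : ℤ)) : ZMod n) := h1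
  push_cast at h2
  rw [ZMod.natCast_zmod_val] at h2
  exact h2

end Pool.Agent.H88.VR
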