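import Pool.Agent.H30.VR.Targets

/-!
# MP_d32443_co, board ver_modules, row LNK: cycles through all selected pairs
-/

set_option autoImplicit false

open Finset Pool.Agent.H48.CE Pool.Agent.H30.VR

namespace Pool.Agent.H88.VR

/-- a connecting path between two lists -/
theorem join_chain {V : Type} {R : V → V → Prop} {P l S : List V} {u v : V} (hP : P.IsChain R)
    (hl : P.getLast? = some u) (hpt : (u :: (l ++ [v])).IsChain R) (hS : S.IsChain R)
    (hh : S.head? = some v) : (P ++ (l ++ S)).IsChain R := by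
  rw [show u :: (l ++ [v]) = [u] ++ (l ++ [v]) from rfl, List.isChain_append] at hpt
  obtain ⟨-, h1, h2⟩ := hpt
  rw [List.isChain_append] at h1
  obtain ⟨h3, -, h4⟩ := h1
  rw [List.isChain_append]
  refine ⟨hP, ?_, ?_⟩
  · rw [List.isChain_append]
    refine ⟨h3, hS, ?_⟩
    intro x hx y hy
    refine h4 x hx y ?_
    rw [hh, Option.mem_some_iff] at hy
    rw [← hy]
    simp
  · intro x hx y hy
    rw [hl, Option.mem_some_iff] at hx
    rw [← hx]
    refine h2 u (by simp) y ?_
    rw [List.head?_append] at hy ⊢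
    rw [hh] at hy
    exact hy

/-- the end of a connecting path -/
theorem join_chain' {V : Type} {R : V → V → Prop} {P l : List V} {u v : V} (hP : P.IsChain R)
    (hl : P.getLast? = some u) (hpt : (u :: (l ++ [v])).IsChain R) : (P ++ l).IsChain R := by
  rw [show u :: (l ++ [v]) = [u] ++ (l ++ [v]) from rfl, List.isChain_append] at hpt
  obtain ⟨-, h1, h2⟩ := hpt
  rw [List.isChain_append] at h1
  obtain ⟨h3, -, h4⟩ := h1
  rw [List.isChain_append]
  refine ⟨hP, h3, ?_⟩
  intro x hx y hy
  rw [hl, Option.mem_some_iff] at hx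
  rw [← hx]
  refine h2 u (by simp) y ?_
  rw [List.head?_append, Option.mem_def.1 hy]
  rfl

theorem join_last {V : Type} {R : V → V → Prop} {l : List V} {u v x : V}
    (hpt : (u :: (l ++ [v])).IsChain R) (hx : l.getLast? = some x) : R x v := by
  rw [show u :: (l ++ [v]) = [u] ++ (l ++ [v]) from rfl, List.isChain_append] at hpt
  obtain ⟨-, h1, -⟩ := hpt
  rw [List.isChain_append] at h1
  exact h1.2.2 x hx v (by simp)

open scoped Classical in
theorem pf_LNK (hLKA : T_LKA) (hFLX : T_FLX) (hHCN : T_HCN) (hCAT : T_CAT) : T_LNK := by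
  intro V _ G M r d A B t A₀ B₀ t₀ hCon hd0 hd1 hpair hAB0 hcard0 h20 hLR0 h3t0 ht0 hdis hdis0
  obtain ⟨a, Q, hainj, hPS, ha, hAQ, hA0Q, hB0Q⟩ := hLKA G M r d A B t A₀ B₀ t₀ hCon hd0 hd1 hpair
    hAB0 hcard0 h20 hLR0 h3t0 ht0 hdis hdis0
  set X : Finset V := univ.filter (fun v => ∃ j, v ∈ Q j) with hX
  have hXmem : ∀ v, v ∈ X ↔ ∃ j, v ∈ Q j := fun v => by rw [hX, mem_filter]; simp
  have hfil : ∀ S : Finset V, S.filter (fun v => v ∈ X) = S.filter (fun v => ∃ j, v ∈ Q j) :=
    fun S => filter_congr fun v _ => hXmem v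
  have hlast := hPS.last
  choose hb hbY hbl using hlast
  have hbX : ∀ j, hb j ∈ X := fun j => (hXmem _).2 ⟨j, List.mem_of_getLast? (hbl j)⟩
  have hbinj : ∀ j j', j ≠ j' → hb j ≠ hb j' := by
    intro j j' hjj h
    exact hPS.disj j j' hjj (hb j) (List.mem_of_getLast? (hbl j))
      (by rw [h]; exact List.mem_of_getLast? (hbl j'))
  have hQne : ∀ j, Q j ≠ [] := by
    intro j h
    have := hPS.head j
    rw [h] at this
    simp at this
  refine ⟨fun i => (Q (i, false)).length + (Q (i, true)).length + 10, ?_⟩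
  intro I hI s hs
  have hNpos : 0 < I.card := card_pos.2 hI
  have hNM : I.card ≤ M := by
    have := card_le_univ I
    rwa [Fintype.card_fin] at this
  have hinv : 1 ≤ 1 / d := by rw [le_div_iff₀ hd0]; linarith
  have hMr : (1 : ℝ) ≤ M := by exact_mod_cast (by omega : 1 ≤ M)
  have h24 : ∀ τ : ℕ, 3 * (2 * (M : ℝ)) * (1 / d + 3) ≤ τ → 24 * M ≤ τ := by
    intro τ h
    have h1 : (24 : ℝ) * M ≤ 3 * (2 * (M : ℝ)) * (1 / d + 3) := by nlinarith
    exact_mod_cast h1.trans h
  -- the connectors in the central pair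
  obtain ⟨N, hN⟩ : ∃ N, N = I.card := ⟨_, rfl⟩
  set e := I.orderEmbOfFin hN.symm with he
  have hNpos' : 0 < N := by omega
  have hnext : ∀ j : Fin N, (j.val + 1) % N < N := fun j => Nat.mod_lt _ hNpos'
  obtain ⟨con, hcon, hcond⟩ := hHCN G A₀ B₀ X d t₀ N (fun j => hb (e j, true))
    (fun j => hb (e ⟨(j.val + 1) % N, hnext j⟩, false)) hAB0 hcard0 hd0 hd1 ht0 hLR0 h20
    (by rw [hfil]; exact hA0Q) (by rw [hfil]; exact hB0Q) (by
      have := h24 t₀ h3t0
      omega) (fun j => by
      have h1 := hbY (e j, true)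
      have h2 := hbY (e ⟨(j.val + 1) % N, hnext j⟩, false)
      rw [mem_filter] at h1 h2
      exact ⟨h1.1, h2.1, hbX _, hbX _, h1.2, h2.2⟩) (fun j => hbinj _ _ (by
      intro h
      exact absurd (congrArg Prod.snd h) (by simp)))
  -- the flexible paths
  have hflx0 : ∀ i ∈ I, ∃ l : List V, l.length = 2 * s i + 7 ∧
      Pt G (a (i, false)) l (a (i, true)) ∧ ∀ v ∈ l, (v ∈ A i ∨ v ∈ B i) ∧ v ∉ X := by
    intro i hi
    obtain ⟨h1, h2, h3, h4, h5, h6, h7⟩ := hpair i
    refine hFLX G (A i) (B i) X d (t i) (a (i, false)) (a (i, true)) h1 h2 hd0 (by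
      have := h24 (t i) h7
      omega) h5 h3 hd1 (by rw [hfil]; exact (hAQ i).1) (by rw [hfil]; exact (hAQ i).2)
      (ha i false).1 (ha i true).1 (by
        intro h
        exact absurd (congrArg Prod.snd (hainj h)) (by simp)) (ha i false).2 (ha i true).2
      (s i) (hs i hi)
  choose! flx hflx1 hflx2 hflx3 using hflx0
  have heI : ∀ j, e j ∈ I := fun j => I.orderEmbOfFin_mem hN.symm j
  set E : ℕ → Fin N := fun j => ⟨j % N, Nat.mod_lt _ hNpos'⟩ with hE
  set L : ℕ → List V := fun j => (Q (e (E j), false)).reverse ++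
    (flx (e (E j)) ++ (Q (e (E j), true) ++ con (E j))) with hL
  have hEinj : ∀ i < N, ∀ j < N, i ≠ j → E i ≠ E j := by
    intro i hi j hj hij h
    rw [hE, Fin.mk.injEq, Nat.mod_eq_of_lt hi, Nat.mod_eq_of_lt hj] at h
    exact hij h
  have hmemL : ∀ j v, v ∈ L j ↔ (v ∈ Q (e (E j), false) ∨ v ∈ flx (e (E j)) ∨
      v ∈ Q (e (E j), true) ∨ v ∈ con (E j)) := by
    intro j v
    simp only [hL, List.mem_append, List.mem_reverse]
  have hconne : ∀ j, con j ≠ [] := by
    intro j h
    have := (hcon j).1
    rw [h] at this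
    simp at this
  have hQX : ∀ j v, v ∈ Q j → v ∈ X := fun j v hv => (hXmem v).2 ⟨j, hv⟩
  have hflxX : ∀ j v, v ∈ flx (e j) → v ∉ X := fun j v hv => (hflx3 (e j) (heI j) v hv).2
  have hconX : ∀ j v, v ∈ con j → v ∉ X := fun j v hv => ((hcon j).2.2 v hv).2
  have hfc : ∀ j j' v, v ∈ flx (e j) → v ∉ con j' := by
    intro j j' v hv hv'
    have h1 := (hflx3 (e j) (heI j) v hv).1
    have h2 := ((hcon j').2.2 v hv').1
    have h3 := hdis0 (e j) v h1
    rcases h2 with h2 | h2
    · exact h3.1 h2
    · exact h3.2 h2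
  have hlenL : ∀ j, (L j).length = (Q (e (E j), false)).length + (Q (e (E j), true)).length + 10 +
      2 * s (e (E j)) := by
    intro j
    simp only [hL, List.length_append, List.length_reverse]
    rw [hflx1 (e (E j)) (heI _), (hcon (E j)).1]
    ring
  have hheadL : ∀ j, (L j).head? = some (hb (e (E j), false)) := by
    intro j
    simp only [hL]
    rw [List.head?_append, List.head?_reverse, hbl]
    rfl
  have hcyc := hCAT G N L hNpos' (by
    intro j hj
    refine ⟨?_, ?_, ?_⟩
    · intro h
      have := hheadL j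
      rw [h] at this
      simp at this
    · simp only [hL]
      rw [List.nodup_append, List.nodup_append, List.nodup_append, List.nodup_reverse]
      refine ⟨hPS.nodup _, ⟨?_, ⟨hPS.nodup _, ?_, ?_⟩, ?_⟩, ?_⟩
      · have h1 := (hflx2 (e (E j)) (heI _)).1
        exact (List.nodup_append.1 (List.nodup_cons.1 h1).2).1
      · have h1 := (hcon (E j)).2.1.1
        exact (List.nodup_append.1 (List.nodup_cons.1 h1).2).1
      · intro v hv w hw hvw
        subst hvw
        exact hconX _ v hw (hQX _ v hv)
      · intro v hv w hw hvw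
        subst hvw
        rcases List.mem_append.1 hw with hw | hw
        · exact hflxX _ v hv (hQX _ v hw)
        · exact hfc _ _ v hv hw
      · intro v hv w hw hvw
        subst hvw
        rw [List.mem_reverse] at hv
        rcases List.mem_append.1 hw with hw | hw
        · exact hflxX _ v hw (hQX _ v hv)
        rcases List.mem_append.1 hw with hw | hw
        · exact hPS.disj _ _ (by
            intro h
            exact absurd (congrArg Prod.snd h) (by simp)) v hv hw
        · exact hconX _ v hw (hQX _ v hv)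
    · simp only [hL]
      refine join_chain (u := a (e (E j), false)) (v := a (e (E j), true)) ?_ ?_
        (hflx2 (e (E j)) (heI _)).2 ?_ ?_
      · rw [List.isChain_reverse]
        exact (hPS.chain _).imp fun _ _ h => h.symm
      · rw [List.getLast?_reverse]
        exact hPS.head _
      · exact join_chain' (hPS.chain _) (hbl _) (hcon (E j)).2.1.2
      · rw [List.head?_append, hPS.head]
        rfl) (by
    intro i hi j hj hij v hv hv'
    rw [hmemL] at hv hv'
    have hEij := hEinj i hi j hj hij
    have heij : e (E i) ≠ e (E j) := fun h => hEij (e.injective h)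
    have hQQ : ∀ b b', v ∈ Q (e (E i), b) → v ∉ Q (e (E j), b') := fun b b' h h' =>
      hPS.disj _ _ (by
        intro h
        exact heij (congrArg Prod.fst h)) v h h'
    rcases hv with hv | hv | hv | hv
    · rcases hv' with h | h | h | h
      · exact hQQ _ _ hv h
      · exact hflxX _ v h (hQX _ v hv)
      · exact hQQ _ _ hv h
      · exact hconX _ v h (hQX _ v hv)
    · rcases hv' with h | h | h | h
      · exact hflxX _ v hv (hQX _ v h)
      · have h1 := (hflx3 _ (heI _) v hv).1
        have h2 := (hflx3 _ (heI _) v h).1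
        have h3 := hdis _ _ heij v h1
        rcases h2 with h2 | h2
        · exact h3.1 h2
        · exact h3.2 h2
      · exact hflxX _ v hv (hQX _ v h)
      · exact hfc _ _ v hv h
    · rcases hv' with h | h | h | h
      · exact hQQ _ _ hv h
      · exact hflxX _ v h (hQX _ v hv)
      · exact hQQ _ _ hv h
      · exact hconX _ v h (hQX _ v hv)
    · rcases hv' with h | h | h | h
      · exact hconX _ v hv (hQX _ v h)
      · exact hfc _ _ v h hv
      · exact hconX _ v hv (hQX _ v h)
      · exact hcond _ _ hEij v hv h) (by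
    intro j hj x hx y hy
    rw [hheadL, Option.mem_some_iff] at hy
    rw [← hy]
    simp only [hL] at hx
    rw [List.getLast?_append_of_ne_nil _ (by simp [hconne]),
      List.getLast?_append_of_ne_nil _ (by simp [hconne]),
      List.getLast?_append_of_ne_nil _ (hconne _)] at hx
    have h1 := join_last (hcon (E j)).2.1.2 (Option.mem_def.1 hx)
    have h2 : E ((j + 1) % N) = ⟨((E j).val + 1) % N, hnext (E j)⟩ := by
      rw [hE]
      apply Fin.ext
      show (j + 1) % N % N = (j % N + 1) % N
      rw [Nat.mod_mod, Nat.mod_add_mod]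
    rw [h2]
    exact h1) (by
    have h1 : (L 0).length ≤ ∑ i ∈ range N, (L i).length :=
      single_le_sum (f := fun i => (L i).length) (fun _ _ => Nat.zero_le _) (mem_range.2 hNpos')
    have h2 := hlenL 0
    omega)
  have hsum : ∑ j ∈ range N, (L j).length =
      ∑ i ∈ I, ((Q (i, false)).length + (Q (i, true)).length + 10 + 2 * s i) := by
    rw [← Fin.sum_univ_eq_sum_range (fun j => (L j).length) N]
    have h1 : ∀ j : Fin N, E j.val = j := by
      intro j
      rw [hE]
      apply Fin.ext
      exact Nat.mod_eq_of_lt j.isLt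
    have h2 : ∀ j : Fin N, (L j.val).length = (Q (e j, false)).length +
        (Q (e j, true)).length + 10 + 2 * s (e j) := by
      intro j
      rw [hlenL, h1]
    rw [sum_congr rfl fun j _ => h2 j]
    conv_rhs => rw [← I.map_orderEmbOfFin_univ hN.symm, sum_map]
    rfl
  rw [hsum] at hcyc
  exact hcyc

end Pool.Agent.H88.VR
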