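import Pool.Agent.H30.VR.Targets

/-!
# MP_d32443_co, board ver_modules, row POS: rotations of a longest path
-/

set_option autoImplicit false

open Finset Pool.Agent.H48.CE Pool.Agent.H30.VR

namespace Pool.Agent.H88.VR.POS

variable {V : Type} {H : SimpleGraph V}

/-- the paths obtained from `L` by rotations; the moving end is the head of the list -/
inductive Rot (H : SimpleGraph V) (L : List V) : List V → Prop
  | base : Rot H L L
  | step (u : V) (A : List V) (x : V) (B : List V) :
      Rot H L (u :: A ++ x :: B) → H.Adj u x → Rot H L ((u :: A).reverse ++ x :: B)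

theorem Rot.perm {L p : List V} (h : Rot H L p) : p.Perm L := by
  induction h with
  | base => exact List.Perm.refl _
  | step u A x B _ _ ih =>
    exact ((List.reverse_perm (u :: A)).append_right (x :: B)).trans ih

/-- the chain property for a symmetric relation -/
theorem chain_step {R : V → V → Prop} (hR : ∀ a b, R a b → R b a) {u x : V} {A B : List V}
    (h : (u :: A ++ x :: B).IsChain R) (hux : R u x) :
    ((u :: A).reverse ++ x :: B).IsChain R := by
  rw [List.isChain_append] at h ⊢
  refine ⟨?_, h.2.1, ?_⟩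
  · rw [List.isChain_reverse]
    exact h.1.imp fun a b hab => hR a b hab
  · intro a ha b hb
    rw [List.getLast?_reverse, List.head?_cons, Option.mem_some_iff] at ha
    rw [List.head?_cons, Option.mem_some_iff] at hb
    rw [← ha, ← hb]
    exact hux

theorem Rot.chain {L p : List V} (h : Rot H L p) (hL : L.IsChain H.Adj) : p.IsChain H.Adj := by
  induction h with
  | base => exact hL
  | step u A x B _ hux ih => exact chain_step (fun _ _ h => h.symm) ih hux

/-- the new end is a neighbour of `x` -/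
theorem new_end {R : V → V → Prop} {u x : V} {A B : List V} (h : (u :: A ++ x :: B).IsChain R) :
    ∃ z, ((u :: A).reverse ++ x :: B).head? = some z ∧ R z x := by
  rw [List.isChain_append] at h
  obtain ⟨z, hz⟩ : ∃ z, (u :: A).getLast? = some z := ⟨_, List.getLast?_eq_some_getLast (by simp)⟩
  refine ⟨z, ?_, h.2.2 z hz x (by simp)⟩
  rw [List.head?_append, List.head?_reverse, hz]
  rfl

theorem Rot.col {L p : List V} (h : Rot H L p) (hL : L.IsChain H.Adj) {col : V → Bool}
    (hcol : ∀ u v, H.Adj u v → col u ≠ col v) {w : V} (hw : L.head? = some w) :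
    ∃ z, p.head? = some z ∧ col z = col w := by
  induction h with
  | base => exact ⟨w, hw, rfl⟩
  | step u A x B hr hux ih =>
    obtain ⟨z, hz, hzx⟩ := new_end (hr.chain hL)
    refine ⟨z, hz, ?_⟩
    obtain ⟨z', hz', hc⟩ := ih
    rw [List.cons_append, List.head?_cons, Option.some.injEq] at hz'
    subst hz'
    rw [← hc]
    have h1 := hcol _ _ hzx
    have h2 := hcol _ _ hux
    revert h1 h2
    cases col z <;> cases col x <;> cases col u <;> simp

/-- last element with a property -/
theorem exists_last {P : V → Prop} (L : List V) (h : ∃ a ∈ L, P a) :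
    ∃ C a D, L = C ++ a :: D ∧ P a ∧ ∀ d ∈ D, ¬ P d := by
  induction L with
  | nil =>
    obtain ⟨a, ha, -⟩ := h
    exact absurd ha List.not_mem_nil
  | cons b L ih =>
    by_cases h1 : ∃ a ∈ L, P a
    · obtain ⟨C, a, D, h2, h3, h4⟩ := ih h1
      exact ⟨b :: C, a, D, by rw [h2, List.cons_append], h3, h4⟩
    · obtain ⟨a, ha, hPa⟩ := h
      rcases List.mem_cons.1 ha with rfl | ha
      · exact ⟨[], a, L, rfl, hPa, fun d hd hP => h1 ⟨d, hd, hP⟩⟩
      · exact absurd ⟨a, ha, hPa⟩ h1

/-- the initial part of the path is never changed -/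
theorem Rot.keep {L p : List V} (h : Rot H L p) {C D : List V} {a : V} (hL : L = C ++ a :: D)
    (hD : ∀ d ∈ D, ∀ q, Rot H L q → ∀ u, q.head? = some u → ¬ H.Adj u d) :
    ∃ C', p = C' ++ a :: D ∧ C'.Perm C := by
  induction h with
  | base => exact ⟨C, hL, List.Perm.refl _⟩
  | step u A x B hr hux ih =>
    obtain ⟨C', h1, h2⟩ := ih
    have hxD : x ∉ D := fun hx => hD x hx _ hr u (by simp) hux
    rw [List.append_eq_append_iff] at h1
    rcases h1 with ⟨l, h3, h4⟩ | ⟨l, h3, h4⟩
    · cases l with
      | nil =>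
        rw [List.append_nil] at h3
        rw [List.nil_append] at h4
        refine ⟨(u :: A).reverse, by rw [h4], ?_⟩
        rw [h3] at h2
        exact (List.reverse_perm _).trans h2
      | cons y l =>
        rw [List.cons_append, List.cons.injEq] at h4
        obtain ⟨rfl, h5⟩ := h4
        refine ⟨(u :: A).reverse ++ x :: l, by rw [h5]; simp, ?_⟩
        rw [h3] at h2
        exact ((List.reverse_perm (u :: A)).append_right (x :: l)).trans h2
    · cases l with
      | nil =>
        rw [List.append_nil] at h3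
        rw [List.nil_append] at h4
        refine ⟨(u :: A).reverse, by rw [← h4], ?_⟩
        rw [← h3] at h2
        exact (List.reverse_perm _).trans h2
      | cons y l =>
        rw [List.cons_append, List.cons.injEq] at h4
        exfalso
        apply hxD
        rw [h4.2]
        simp

/-- `y` is a neighbour of `x` on the path `L` -/
def Ln (L : List V) (x y : V) : Prop :=
  ∃ i, (L[i]? = some x ∧ L[i + 1]? = some y) ∨ (L[i]? = some y ∧ L[i + 1]? = some x)

theorem ln_chain (L : List V) (x : V) :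
    L.IsChain (fun a b => (a = x → Ln L x b) ∧ (b = x → Ln L x a)) := by
  rw [List.isChain_iff_getElem]
  intro i hi
  have h1 : L[i]? = some L[i] := List.getElem?_eq_getElem (by omega)
  have h2 : L[i + 1]? = some L[i + 1] := List.getElem?_eq_getElem hi
  constructor
  · intro h
    refine ⟨i, Or.inl ⟨?_, h2⟩⟩
    rw [h1, h]
  · intro h
    refine ⟨i, Or.inr ⟨h1, ?_⟩⟩
    rw [h2, h]

/-- the neighbours of `x` on the paths are the same as long as no end is a neighbour of `x` -/
theorem Rot.ln {L p : List V} (h : Rot H L p) (x : V)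
    (hx : ∀ q, Rot H L q → ∀ u, q.head? = some u → u ≠ x ∧ ¬ Ln L x u) :
    p.IsChain (fun a b => (a = x → Ln L x b) ∧ (b = x → Ln L x a)) := by
  induction h with
  | base => exact ln_chain L x
  | step u A y B hr huy ih =>
    apply chain_step (fun a b hab => ⟨hab.2, hab.1⟩) ih
    refine ⟨fun h => absurd h (hx _ hr u (by simp)).1, ?_⟩
    intro h
    exfalso
    obtain ⟨z, hz, hzy⟩ := new_end ih
    exact (hx _ (Rot.step u A y B hr huy) z hz).2 (hzy.2 h)

/-- neighbours of ends are next to ends on `L` -/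
theorem next_end {L : List V} {x : V} (hxL : x ∈ L) {p : List V} {u : V} (hp : Rot H L p)
    (hu : p.head? = some u) (hux : H.Adj u x) (hxU : ∀ q, Rot H L q → q.head? ≠ some x) :
    ∃ q v, Rot H L q ∧ q.head? = some v ∧ Ln L x v := by
  by_contra hcon
  have h1 : ∀ q, Rot H L q → ∀ u, q.head? = some u → u ≠ x ∧ ¬ Ln L x u := by
    intro q hq v hv
    refine ⟨?_, fun h => hcon ⟨q, v, hq, hv, h⟩⟩
    rintro rfl
    exact hxU q hq hv
  have hxp : x ∈ p := hp.perm.mem_iff.2 hxL
  obtain ⟨s, t, rfl⟩ := List.append_of_mem hxp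
  cases s with
  | nil =>
    rw [List.nil_append, List.head?_cons, Option.some.injEq] at hu
    subst hu
    exact H.loopless.irrefl _ hux
  | cons w A =>
    rw [List.cons_append, List.head?_cons, Option.some.injEq] at hu
    subst hu
    obtain ⟨z, hz, hzx⟩ := new_end (hp.ln x h1)
    exact (h1 _ (Rot.step w A x t hp hux) z hz).2 (hzx.2 rfl)

/-- a vertex has at most two neighbours on a path -/
theorem ln_card [Fintype V] [DecidableEq V] {L : List V} (hL : L.Nodup) (u : V) :
    ∃ S : Finset V, S.card ≤ 2 ∧ ∀ x, Ln L x u → x ∈ S := by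
  refine ⟨{L.getD (L.idxOf u - 1) u, L.getD (L.idxOf u + 1) u}, card_le_two, ?_⟩
  have hidx : ∀ j, L[j]? = some u → j = L.idxOf u := by
    intro j hj
    obtain ⟨hj1, hj2⟩ := List.getElem?_eq_some_iff.1 hj
    rw [← hj2]
    exact (hL.idxOf_getElem j hj1).symm
  rintro x ⟨i, ⟨h1, h2⟩ | ⟨h1, h2⟩⟩
  · have h3 := hidx _ h2
    rw [mem_insert]
    left
    rw [← h3, Nat.add_sub_cancel, List.getD_eq_getElem?_getD, h1]
    rfl
  · have h3 := hidx _ h1
    rw [mem_insert, mem_singleton]
    right
    rw [← h3, List.getD_eq_getElem?_getD, h2]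
    rfl

/-- a closed list without repetition as a function on `ZMod` -/
theorem cyc_of_list {K : List V} {n : ℕ} (hn : n = K.length) (h4 : 4 ≤ n) (hnd : K.Nodup)
    (hch : K.IsChain H.Adj) {u a : V} (hu : K.head? = some u) (ha : K.getLast? = some a)
    (hau : H.Adj a u) :
    ∃ c : ZMod n → V, Function.Injective c ∧ (∀ i, H.Adj (c i) (c (i + 1))) ∧ c 0 = u ∧
      (∀ v ∈ K, ∃ i, v = c i) ∧ ∀ i, c i ∈ K := by
  have hne : NeZero n := ⟨by omega⟩
  have hlt : ∀ i : ZMod n, i.val < K.length := fun i => by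
    rw [← hn]
    exact ZMod.val_lt i
  refine ⟨fun i => K[i.val]'(hlt i), ?_, ?_, ?_, ?_, ?_⟩
  · intro i j hij
    apply ZMod.val_injective n
    exact (hnd.getElem_inj_iff).1 hij
  · intro i
    show H.Adj (K[i.val]'(hlt i)) (K[(i + 1).val]'(hlt (i + 1)))
    have h1 : (1 : ZMod n).val = 1 := by
      rw [ZMod.val_one_eq_one_mod, Nat.mod_eq_of_lt (by omega)]
    have h2 : (i + 1).val = (i.val + 1) % n := by rw [ZMod.val_add, h1]
    by_cases hi : i.val + 1 < n
    · have h3 : (i + 1).val = i.val + 1 := by rw [h2, Nat.mod_eq_of_lt hi]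
      have h4 := List.isChain_iff_getElem.1 hch i.val (by omega)
      have h5 : K[(i + 1).val]'(hlt (i + 1)) = K[i.val + 1]'(by omega) := by
        congr 1
      rw [h5]
      exact h4
    · have hi' : i.val + 1 = n := by
        have := hlt i
        omega
      have h3 : (i + 1).val = 0 := by rw [h2, hi', Nat.mod_self]
      have h5 : K[(i + 1).val]'(hlt (i + 1)) = u := by
        have h6 : K[0]? = some u := by rw [← List.head?_eq_getElem?]; exact hu
        obtain ⟨h7, h8⟩ := List.getElem?_eq_some_iff.1 h6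
        rw [← h8]
        congr 1
      have h6 : K[i.val]'(hlt i) = a := by
        have h7 : K[K.length - 1]? = some a := by rw [← List.getLast?_eq_getElem?]; exact ha
        obtain ⟨h8, h9⟩ := List.getElem?_eq_some_iff.1 h7
        rw [← h9]
        congr 1
        omega
      rw [h5, h6]
      exact hau
  · show K[(0 : ZMod n).val]'(hlt 0) = u
    have h6 : K[0]? = some u := by rw [← List.head?_eq_getElem?]; exact hu
    obtain ⟨h7, h8⟩ := List.getElem?_eq_some_iff.1 h6
    rw [← h8]
    congr 1
    exact ZMod.val_zero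
  · intro v hv
    obtain ⟨j, hj, rfl⟩ := List.getElem_of_mem hv
    refine ⟨(j : ZMod n), ?_⟩
    show K[j] = K[((j : ZMod n)).val]'(hlt _)
    congr 1
    rw [ZMod.val_natCast, Nat.mod_eq_of_lt (by omega)]
  · intro i
    exact List.getElem_mem _

end Pool.Agent.H88.VR.POS

namespace Pool.Agent.H88.VR

open POS

open scoped Classical in
theorem pf_POS : T_POS := by
  intro V _ H Z col hZ hcol hdeg hcl
  -- a longest path
  obtain ⟨z₀, hz₀⟩ := hZ
  have hex : ∃ N : ℕ, ∃ L : List V, L.Nodup ∧ L.IsChain H.Adj ∧ (∀ v ∈ L, v ∈ Z) ∧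
      L.length + N = Z.card ∧ L ≠ [] := by
    refine ⟨Z.card - 1, [z₀], by simp, by simp, by simpa using hz₀, ?_, by simp⟩
    have : 0 < Z.card := card_pos.2 ⟨z₀, hz₀⟩
    simp
    omega
  obtain ⟨L, hnd, hch, hLZ, hlen, hne⟩ := Nat.find_spec hex
  have hle : ∀ q : List V, q.Nodup → (∀ v ∈ q, v ∈ Z) → q.length ≤ Z.card := by
    intro q hq hqZ
    rw [← List.toFinset_card_of_nodup hq]
    exact card_le_card fun v hv => hqZ v (List.mem_toFinset.1 hv)
  have hmax : ∀ q : List V, q.Nodup → q.IsChain H.Adj → (∀ v ∈ q, v ∈ Z) →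
      q.length ≤ L.length := by
    intro q h1 h2 h3
    by_contra hlt
    push Not at hlt
    have h4 := hle q h1 h3
    have h5 := Nat.find_min' hex ⟨q, h1, h2, h3, (by omega : q.length + (Z.card - q.length) = _),
      by
        rintro rfl
        simp at hlt⟩
    omega
  obtain ⟨w, hw⟩ : ∃ w, L.head? = some w := by
    cases L with
    | nil => exact absurd rfl hne
    | cons a l => exact ⟨a, rfl⟩
  set E : V → Prop := fun u => ∃ p, Rot H L p ∧ p.head? = some u with hE
  have hEcol : ∀ u, E u → col u = col w := by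
    rintro u ⟨p, hp, hu⟩
    obtain ⟨z, hz, hc⟩ := hp.col hch hcol hw
    rw [hu, Option.some.injEq] at hz
    rw [hz]
    exact hc
  have hEL : ∀ u, E u → u ∈ L := by
    rintro u ⟨p, hp, hu⟩
    exact hp.perm.mem_iff.1 (List.mem_of_mem_head? hu)
  have hNL : ∀ u x, E u → H.Adj u x → x ∈ L := by
    rintro u x ⟨p, hp, hu⟩ hux
    by_contra hx
    have hxp : x ∉ p := fun h => hx (hp.perm.mem_iff.1 h)
    have huZ : u ∈ Z := hLZ u (hEL u ⟨p, hp, hu⟩)
    have h1 := hmax (x :: p) (List.nodup_cons.2 ⟨hxp, hp.perm.nodup_iff.2 hnd⟩) (by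
      cases p with
      | nil => simp at hu
      | cons a l =>
        rw [List.head?_cons, Option.some.injEq] at hu
        subst hu
        exact List.isChain_cons_cons.2 ⟨hux.symm, hp.chain hch⟩) (by
      intro v hv
      rcases List.mem_cons.1 hv with rfl | hv
      · exact hcl u huZ _ hux
      · exact hLZ v (hp.perm.mem_iff.1 hv))
    rw [List.length_cons, hp.perm.length_eq] at h1
    omega
  have hEw : E w := ⟨L, Rot.base, hw⟩
  -- the last vertex of `L` which is a neighbour of an end
  obtain ⟨C, a, D, hLd, ⟨u, hu, hua⟩, hD⟩ := exists_last (P := fun a => ∃ u, E u ∧ H.Adj u a) L (by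
    have h1 : 0 < (nb H Z w).card := lt_of_lt_of_le (by norm_num) (hdeg w (hLZ w (hEL w hEw)))
    obtain ⟨b, hb⟩ := card_pos.1 h1
    have hb' := (mem_nb.1 hb).2
    exact ⟨b, hNL w b hEw hb', w, hEw, hb'⟩)
  have hD' : ∀ d ∈ D, ∀ q, Rot H L q → ∀ u, q.head? = some u → ¬ H.Adj u d :=
    fun d hd q hq u hu h => hD d hd ⟨u, ⟨q, hq, hu⟩, h⟩
  obtain ⟨p, hp, hup⟩ := hu
  obtain ⟨C', hpC, hCC⟩ := hp.keep hLd hD'
  have hC'ne : ∃ C'', C' = u :: C'' := by
    cases C' with
    | nil =>
      rw [hpC, List.nil_append, List.head?_cons, Option.some.injEq] at hup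
      subst hup
      exact absurd hua (H.loopless.irrefl _)
    | cons b C'' =>
      rw [hpC, List.cons_append, List.head?_cons, Option.some.injEq] at hup
      subst hup
      exact ⟨C'', rfl⟩
  obtain ⟨C'', rfl⟩ := hC'ne
  set K : List V := u :: C'' ++ [a] with hK
  have hpK : p = K ++ D := by rw [hpC, hK]; simp
  have hKnd : K.Nodup := by
    have h1 : p.Nodup := hp.perm.nodup_iff.2 hnd
    rw [hpK] at h1
    exact (List.nodup_append.1 h1).1
  have hKch : K.IsChain H.Adj := by
    have h1 := hp.chain hch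
    rw [hpK] at h1
    exact (List.isChain_append.1 h1).1
  have hmemK : ∀ v, v ∈ C ∨ v = a → v ∈ K := by
    intro v hv
    rw [hK, List.mem_append, List.mem_singleton]
    rcases hv with hv | hv
    · exact Or.inl (hCC.mem_iff.2 hv)
    · exact Or.inr hv
  have hNK : ∀ u' x, E u' → H.Adj u' x → x ∈ K := by
    intro u' x hu' hux
    have h1 := hNL u' x hu' hux
    rw [hLd, List.mem_append, List.mem_cons] at h1
    rcases h1 with h1 | h1 | h1
    · exact hmemK x (Or.inl h1)
    · exact hmemK x (Or.inr h1)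
    · exact absurd ⟨u', hu', hux⟩ (hD x h1)
  have hEu : E u := ⟨p, hp, hup⟩
  have hEK : ∀ u', E u' → u' ∈ K := by
    rintro u' hu'
    obtain ⟨p', hp', hup'⟩ := hu'
    obtain ⟨C₃, h3, h4⟩ := hp'.keep hLd hD'
    cases C₃ with
    | nil =>
      rw [h3, List.nil_append, List.head?_cons, Option.some.injEq] at hup'
      subst hup'
      have h5 := hcol _ _ hua
      rw [hEcol u hEu, hEcol a ⟨p', hp', by rw [h3]; rfl⟩] at h5
      exact absurd rfl h5
    | cons b C₄ =>
      rw [h3, List.cons_append, List.head?_cons, Option.some.injEq] at hup'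
      subst hup'
      exact hmemK b (Or.inl (h4.mem_iff.1 (by simp)))
  have huZ : u ∈ Z := hLZ u (hEL u hEu)
  have hn4 : 4 ≤ K.length := by
    have h1 : insert u (nb H Z u) ⊆ K.toFinset := by
      intro v hv
      rw [List.mem_toFinset]
      rcases mem_insert.1 hv with rfl | hv
      · exact hEK _ hEu
      · exact hNK u v hEu (mem_nb.1 hv).2
    have h2 := card_le_card h1
    rw [List.toFinset_card_of_nodup hKnd, card_insert_of_notMem (by
      intro h
      exact H.loopless.irrefl _ (mem_nb.1 h).2)] at h2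
    have := hdeg u huZ
    omega
  obtain ⟨c, hcinj, hcadj, hc0, hcK, hcK'⟩ := cyc_of_list (H := H) (K := K) rfl hn4 hKnd hKch
    (u := u) (a := a) (by rw [hK]; rfl) (by rw [hK, List.getLast?_append]; rfl) hua.symm
  obtain ⟨x, hx⟩ : ∃ x, x ∈ (nb H Z u) \ {c 1, c (-1)} := by
    apply card_pos.1
    have h1 := le_card_sdiff ({c 1, c (-1)} : Finset V) (nb H Z u)
    have h2 : ({c 1, c (-1)} : Finset V).card ≤ 2 := card_le_two
    have := hdeg u huZ
    omega
  rw [mem_sdiff, mem_insert, mem_singleton, not_or, mem_nb] at hx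
  obtain ⟨r, hr⟩ := hcK x (hNK u x hEu hx.1.2)
  refine ⟨K.length, c, r, univ.filter E, ⟨hn4, hcinj, hcadj, ?_, ?_, ?_⟩, ⟨w, by simpa using hEw⟩,
    ?_, ?_, ?_, ?_⟩
  · rw [hc0, ← hr]
    exact hx.1.2
  · rintro rfl
    exact hx.2.1 hr
  · rintro rfl
    exact hx.2.2 hr
  · intro v hv
    have hv' : E v := (mem_filter.1 hv).2
    exact ⟨hLZ v (hEL v hv'), hcK v (hEK v hv')⟩
  · intro v hv y hvy
    exact hcK y (hNK v y (mem_filter.1 hv).2 hvy)
  · intro v hv v' hv'
    rw [hEcol v (mem_filter.1 hv).2, hEcol v' (mem_filter.1 hv').2]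
  · have hS := fun v => ln_card hnd v
    choose S hS1 hS2 using hS
    refine le_trans (card_le_card (t := (univ.filter E).biUnion S) ?_) ?_
    · intro y hy
      obtain ⟨v, hv, hvy⟩ := (mem_filter.1 hy).2
      obtain ⟨p', hp', hvp'⟩ := (mem_filter.1 hv).2
      have hvE : E v := ⟨p', hp', hvp'⟩
      obtain ⟨q, v', hq, hv', hln⟩ := next_end (hNL v y hvE hvy) hp' hvp' hvy (by
        intro q hq hqy
        have h2 := hcol _ _ hvy
        rw [hEcol v hvE, hEcol y ⟨q, hq, hqy⟩] at h2
        exact absurd rfl h2)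
      rw [mem_biUnion]
      exact ⟨v', by rw [mem_filter]; exact ⟨mem_univ _, q, hq, hv'⟩, hS2 v' y hln⟩
    · calc ((univ.filter E).biUnion S).card ≤ (univ.filter E).card * 2 :=
            card_biUnion_le_card_mul _ _ _ fun v _ => hS1 v
        _ = 2 * (univ.filter E).card := Nat.mul_comm _ _

end Pool.Agent.H88.VR
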